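import Mathlib

namespace Pool.Agent.Results.MP_b44c21_co.Bip

open SimpleGraph Finset

variable {V : Type} {G : SimpleGraph V}

theorem lip (hG : G.Connected) (x : V) {u w : V} (h : G.Adj u w) :
    G.dist x w ≤ G.dist x u + 1 := by
  have := hG.dist_triangle (u := x) (v := u) (w := w)
  rwa [dist_eq_one_iff_adj.2 h] at this

theorem layers (hG : G.Connected) (x : V) (d : ℕ) :
    ∀ y, G.dist x y = d → ∀ i ≤ d, ∃ u, G.dist x u = i := by
  induction d with
  | zero => intro y h i hi; exact ⟨y, by omega⟩
  | succ d ih =>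
    intro y h i hi
    rcases hi.lt_or_eq with h1 | h1
    · obtain ⟨p, hp⟩ := hG.exists_walk_length_eq_dist y x
      rw [dist_comm, h] at hp
      cases p with
      | nil => simp at hp
      | @cons _ w _ a q =>
        have h2 := dist_le q
        have h3 := lip hG x a.symm
        rw [dist_comm] at h2
        rw [Walk.length_cons] at hp
        exact ih w (by omega) i (by omega)
    · exact ⟨y, by omega⟩

theorem build (hG : G.Connected) (x y v : V) (I : Finset V) (h1 : ∀ u ∈ I, G.Adj v u)
    (h2 : ∀ u ∈ I, ∀ w ∈ I, ¬ G.Adj u w) : ∃ S : Finset V, (G.induce (S : Set V)).IsBipartite ∧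
      I.card + G.dist x y ≤ S.card + 1 ∧ (x = v → I.card + G.dist x y ≤ S.card) := by
  classical
  have : Nonempty V := ⟨v⟩
  choose! p hp using layers hG x _ y rfl
  set j := G.dist x v with hj
  set J := (range (G.dist x y + 1)).filter fun i => i + 2 ≤ j ∨ j + 2 ≤ i with hJ
  have mJ : ∀ i ∈ J, G.dist x (p i) = i ∧ (i + 2 ≤ j ∨ j + 2 ≤ i) := fun i hi => by
    simp only [hJ, mem_filter, mem_range] at hi
    exact ⟨hp i (by omega), hi.2⟩
  have dI : ∀ u ∈ I, G.dist x u ≤ j + 1 ∧ j ≤ G.dist x u + 1 := fun u hu =>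
    ⟨lip hG x (h1 u hu), lip hG x (h1 u hu).symm⟩
  have c1 : (J.image p).card = J.card := card_image_of_injOn fun a ha b hb e => by
    rw [← (mJ a ha).1, ← (mJ b hb).1, e]
  have c2 : (insert v (I ∪ J.image p)).card = I.card + J.card + 1 := by
    rw [card_insert_of_notMem, card_union_of_disjoint, c1]
    · rw [Finset.disjoint_left]
      intro u hu hu'
      obtain ⟨i, hi, rfl⟩ := mem_image.1 hu'
      have := mJ i hi
      have := dI _ hu
      omega
    · rw [mem_union, not_or]
      refine ⟨fun h => (h1 v h).ne rfl, fun h => ?_⟩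
      obtain ⟨i, hi, e⟩ := mem_image.1 h
      have := mJ i hi
      rw [e] at this
      omega
  have c3 : G.dist x y + 1 ≤ J.card + 3 := by
    have : range (G.dist x y + 1) ⊆ J ∪ {j - 1, j, j + 1} := fun i hi => by
      simp only [hJ, mem_union, mem_filter, mem_insert, mem_singleton, hi, true_and]
      omega
    have a := (card_le_card this).trans (card_union_le _ _)
    have b := card_le_three (a := j - 1) (b := j) (c := j + 1)
    rw [card_range] at a
    omega
  refine ⟨insert v (I ∪ J.image p), ⟨Coloring.mk (fun u => if u.1 ∈ I then 1 else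
    ⟨(G.dist x u.1 + j) % 2, Nat.mod_lt _ (by norm_num)⟩) ?_⟩, by omega, fun e => ?_⟩
  · have key : ∀ u, u ∈ insert v (I ∪ J.image p) → u ∉ I →
        u = v ∨ ∃ i ∈ J, p i = u := fun u hu h => by
      simp only [mem_insert, mem_union, mem_image] at hu
      tauto
    rintro ⟨u, hu⟩ ⟨w, hw⟩ (h : G.Adj u w)
    have a1 := lip hG x h
    have a2 := lip hG x h.symm
    have hne := h.ne
    simp only [ne_eq]
    split_ifs with b1 b2 b2
    · exact absurd h (h2 u b1 w b2)
    · have := dI u b1
      rw [Fin.ext_iff]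
      rcases key w hw b2 with rfl | ⟨i, hi, rfl⟩
      · simp; omega
      · have := mJ i hi
        simp; omega
    · have := dI w b2
      rw [Fin.ext_iff]
      rcases key u hu b1 with rfl | ⟨i, hi, rfl⟩
      · simp; omega
      · have := mJ i hi
        simp; omega
    · rw [Fin.ext_iff]
      rcases key u hu b1 with rfl | ⟨i, hi, rfl⟩ <;> rcases key w hw b2 with rfl | ⟨k, hk, rfl⟩
      · exact absurd rfl hne
      · have := mJ k hk
        omega
      · have := mJ i hi
        omega
      · have := mJ i hi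
        have := mJ k hk
        have : i ≠ k := fun e => hne (e ▸ rfl)
        simp only
        omega
  · have j0 : j = 0 := by rw [hj, e, SimpleGraph.dist_self]
    have : range (G.dist x y + 1) ⊆ J ∪ {0, 1} := fun i hi => by
      simp only [hJ, mem_union, mem_filter, mem_insert, mem_singleton, hi, true_and]
      omega
    have a := (card_le_card this).trans (card_union_le _ _)
    have b := card_le_two (a := 0) (b := 1)
    rw [card_range] at a
    omega

theorem result {V : Type} [Fintype V] (G : SimpleGraph V) (hG : G.Connected) (v : V) :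
    ∃ S : Finset V, (G.induce (S : Set V)).IsBipartite ∧
      ⌊(∑ u, ((G.eccent u).toNat : ℝ)) / Fintype.card V +
        (G.induce (G.neighborSet v)).indepNum⌋₊ ≤ S.card := by
  classical
  obtain ⟨s, hs⟩ := (G.induce (G.neighborSet v)).exists_isNIndepSet_indepNum
  have hI : (s.map (Function.Embedding.subtype _)).card =
      (G.induce (G.neighborSet v)).indepNum := by rw [card_map, hs.2]
  have h1 : ∀ u ∈ s.map (Function.Embedding.subtype _), G.Adj v u := fun u hu => by
    obtain ⟨a, -, rfl⟩ := mem_map.1 hu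
    exact a.2
  have h2 : ∀ u ∈ s.map (Function.Embedding.subtype _),
      ∀ w ∈ s.map (Function.Embedding.subtype _), ¬ G.Adj u w := fun u hu w hw h => by
    obtain ⟨a, ha, rfl⟩ := mem_map.1 hu
    obtain ⟨b, hb, rfl⟩ := mem_map.1 hw
    exact hs.1 ha hb (fun e => h.ne (e ▸ rfl)) h
  have far : ∀ u, ∃ y, G.dist u y = (G.eccent u).toNat := fun u => by
    obtain ⟨y, hy⟩ := G.exists_edist_eq_eccent_of_finite u
    exact ⟨y, by rw [← hy]; rfl⟩
  have : Nonempty V := ⟨v⟩
  obtain ⟨x, hx⟩ := Finite.exists_max fun u => (G.eccent u).toNat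
  have hn : (0 : ℝ) < Fintype.card V := by exact_mod_cast Fintype.card_pos
  generalize (G.induce (G.neighborSet v)).indepNum = L at *
  rcases (hx v).lt_or_eq with h | h
  · obtain ⟨y, hy⟩ := far x
    obtain ⟨S, a, b, -⟩ := build hG x y v _ h1 h2
    refine ⟨S, a, Nat.le_of_lt_succ ((Nat.floor_lt (by positivity)).2 ?_)⟩
    have c : ∑ u, ((G.eccent u).toNat : ℝ) < ∑ _u : V, ((G.eccent x).toNat : ℝ) :=
      sum_lt_sum (fun u _ => by exact_mod_cast hx u) ⟨v, mem_univ _, by exact_mod_cast h⟩
    rw [sum_const, card_univ, nsmul_eq_mul, mul_comm, ← div_lt_iff₀ hn] at c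
    have d : ((L + (G.eccent x).toNat : ℕ) : ℝ) ≤ (S.card + 1 : ℕ) := by
      exact_mod_cast (by omega)
    push_cast at d ⊢
    linarith
  · obtain ⟨y, hy⟩ := far v
    obtain ⟨S, a, -, b⟩ := build hG v y v _ h1 h2
    refine ⟨S, a, Nat.floor_le_of_le ?_⟩
    have c : ∑ u, ((G.eccent u).toNat : ℝ) ≤ ∑ _u : V, ((G.eccent x).toNat : ℝ) :=
      sum_le_sum fun u _ => by exact_mod_cast hx u
    rw [sum_const, card_univ, nsmul_eq_mul, mul_comm, ← div_le_iff₀ hn] at c
    have b := b rfl
    have d : ((L + (G.eccent x).toNat : ℕ) : ℝ) ≤ (S.card : ℕ) := by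
      exact_mod_cast (by omega)
    push_cast at d
    linarith

end Pool.Agent.Results.MP_b44c21_co.Bip
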